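import Pool.Agent.TCR.Final

/-!
# MP_8b2697_lc: three colours, square at omega_1, and the dominating number

If the positive answer to Q1 holds in a model with continuum aleph_2, then in that model
Jensen's square at omega_1 fails, or the dominating number is bigger than aleph_1 and there is no
Luzin set.
-/

namespace Pool.Agent.Results.MP_8b2697_lc.SquareAndLuzin

open Cardinal Pool.Agent.TCR

/-- Let `X` be a set of at most `ℵ₂` reals and `K` a nonempty set of at most `ℵ₁` colours.  If
`X → [ℵ₁]²_K`, then `□_{ω₁}` fails, or the dominating number is bigger than `ℵ₁` and there is no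
Luzin set. -/
theorem result (X : Set ℝ) (hX : #X ≤ ℵ_ 2) (K : Type) (hne : Nonempty K) (hK : #K ≤ ℵ₁)
    (hQ : Arrow X K) : ¬ SquareOmega1 ∨ (¬ DomAlephOne ∧ ¬ LuzinSetExists) := by
  by_contra hcon
  push Not at hcon
  obtain ⟨hsq, h⟩ := hcon
  have h' : DomAlephOne ∨ LuzinSetExists := by
    by_cases hd : DomAlephOne
    · exact Or.inl hd
    · exact Or.inr (h hd)
  obtain ⟨f, hf1, hf2⟩ := exists_colouring hsq h' hX hK
  obtain ⟨A, hAX, hA, c, hc⟩ := hQ f hf1
  obtain ⟨x, hx, y, hy, hxy, hfc⟩ := hf2 A hAX hA c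
  exact hc x hx y hy hxy hfc

end Pool.Agent.Results.MP_8b2697_lc.SquareAndLuzin
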